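import Pool.Agent.Helper34.PU.Goals

set_option autoImplicit false

open Finset
open scoped Classical

namespace Pool.Agent.Helper27.PU

open Pool.Agent.Helper34.PU

theorem ball : BallStmt := by
  intro V _ H Δ K v hD
  induction K generalizing v with
  | zero =>
    rw [pow_zero, Finset.card_le_one]
    intro a ha b hb
    obtain ⟨p, hp⟩ := (Finset.mem_filter.mp ha).2
    obtain ⟨q, hq⟩ := (Finset.mem_filter.mp hb).2
    have h1 : v = a := SimpleGraph.Walk.eq_of_length_eq_zero (Nat.le_zero.mp hp)
    have h2 : v = b := SimpleGraph.Walk.eq_of_length_eq_zero (Nat.le_zero.mp hq)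
    rw [← h1, ← h2]
  | succ K ih =>
    have hsub : (univ.filter (fun b => ∃ p : H.Walk v b, p.length ≤ K + 1)) ⊆
        (insert v (nbr H v)).biUnion
          (fun w => univ.filter (fun b => ∃ p : H.Walk w b, p.length ≤ K)) := by
      intro b hb
      obtain ⟨p, hp⟩ := (Finset.mem_filter.mp hb).2
      rw [Finset.mem_biUnion]
      cases p with
      | nil =>
        exact ⟨v, Finset.mem_insert_self _ _, Finset.mem_filter.mpr
          ⟨Finset.mem_univ _, SimpleGraph.Walk.nil, Nat.zero_le _⟩⟩
      | cons h q =>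
        rename_i w
        refine ⟨w, Finset.mem_insert_of_mem ?_, Finset.mem_filter.mpr ⟨Finset.mem_univ _, q, ?_⟩⟩
        · exact Finset.mem_filter.mpr ⟨Finset.mem_univ _, h⟩
        · rw [SimpleGraph.Walk.length_cons] at hp
          omega
    refine (Finset.card_le_card hsub).trans ?_
    refine (Finset.card_biUnion_le_card_mul _ _ ((Δ + 1) ^ K) (fun w _ => ih w)).trans ?_
    have hc : (insert v (nbr H v)).card ≤ Δ + 1 :=
      (Finset.card_insert_le _ _).trans (Nat.add_le_add_right (hD v) 1)
    calc (insert v (nbr H v)).card * (Δ + 1) ^ K ≤ (Δ + 1) * (Δ + 1) ^ K :=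
          Nat.mul_le_mul_right _ hc
      _ = (Δ + 1) ^ (K + 1) := by rw [pow_succ]; ring

end Pool.Agent.Helper27.PU
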