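import Pool.Agent.Helper34.PU.Goals

set_option autoImplicit false

open Finset
open scoped Classical

namespace Pool.Agent.Helper27.PU

open Pool.Agent.Helper34.PU

/-- extension from sign functions to functions bounded by one -/
lemma ext_one {T D : ℕ} (l : (Pt T D → ℝ) →ₗ[ℝ] ℝ) (J : Finset (Fin T)) (a : Pt T D) (η : ℝ)
    (hl : ∀ h : Pt T D → ℝ, (∀ φ, h φ = 1 ∨ h φ = -1) → Dep J h → |l h| ≤ η)
    (h : Pt T D → ℝ) (hb : ∀ φ, |h φ| ≤ 1) (hd : Dep J h) : |l h| ≤ η := by
  let rep : Pt T D → Pt T D := fun φ t => if t ∈ J then φ t else a t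
  let ind : Pt T D → Pt T D → ℝ := fun z φ => if rep φ = z then 1 else 0
  have hrep : ∀ φ, ∀ t ∈ J, rep φ t = φ t := by
    intro φ t ht
    simp only [rep, if_pos ht]
  have hrepdep : ∀ φ ψ : Pt T D, (∀ t ∈ J, φ t = ψ t) → rep φ = rep ψ := by
    intro φ ψ hh
    funext t
    by_cases ht : t ∈ J
    · simp only [rep, if_pos ht]; exact hh t ht
    · simp only [rep, if_neg ht]
  have hexp : ∀ u : Pt T D → ℝ, Dep J u → u = ∑ z : Pt T D, u z • ind z := by
    intro u hu
    funext φ
    rw [Finset.sum_apply]
    simp only [Pi.smul_apply, smul_eq_mul, ind]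
    rw [Finset.sum_eq_single (rep φ)]
    · rw [if_pos rfl, mul_one]
      exact hu φ (rep φ) fun t ht => (hrep φ t ht).symm
    · intro z _ hz
      rw [if_neg (Ne.symm hz), mul_zero]
    · intro hz
      exact absurd (Finset.mem_univ _) hz
  let s : Pt T D → ℝ := fun φ => if 0 ≤ l (ind (rep φ)) then 1 else -1
  have hs1 : ∀ φ, s φ = 1 ∨ s φ = -1 := by
    intro φ
    simp only [s]
    split_ifs
    · left; rfl
    · right; rfl
  have hsd : Dep J s := by
    intro φ ψ hh
    simp only [s]
    rw [hrepdep φ ψ hh]
  have hlin : ∀ u : Pt T D → ℝ, Dep J u → l u = ∑ z : Pt T D, u z * l (ind z) := by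
    intro u hu
    conv_lhs => rw [hexp u hu]
    rw [map_sum]
    exact Finset.sum_congr rfl fun z _ => by rw [map_smul, smul_eq_mul]
  have hzero : ∀ z : Pt T D, rep z ≠ z → ind z = 0 := by
    intro z hz
    funext φ
    simp only [ind, Pi.zero_apply]
    rw [if_neg]
    intro hφ
    apply hz
    rw [← hφ]
    exact hrepdep _ _ fun t ht => hrep φ t ht
  have hterm : ∀ z : Pt T D, |l (ind z)| ≤ s z * l (ind z) := by
    intro z
    by_cases hz : rep z = z
    · simp only [s]
      rw [hz]
      split_ifs with h0
      · rw [one_mul, abs_of_nonneg h0]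
      · rw [abs_of_neg (not_le.mp h0)]
        linarith
    · rw [hzero z hz, map_zero]
      simp
  calc |l h| = |∑ z : Pt T D, h z * l (ind z)| := by rw [hlin h hd]
    _ ≤ ∑ z : Pt T D, |h z * l (ind z)| := Finset.abs_sum_le_sum_abs _ _
    _ ≤ ∑ z : Pt T D, s z * l (ind z) := by
        apply Finset.sum_le_sum
        intro z _
        rw [abs_mul]
        calc |h z| * |l (ind z)| ≤ 1 * |l (ind z)| :=
              mul_le_mul_of_nonneg_right (hb z) (abs_nonneg _)
          _ = |l (ind z)| := one_mul _
          _ ≤ s z * l (ind z) := hterm z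
    _ = l s := (hlin s hsd).symm
    _ ≤ |l s| := le_abs_self _
    _ ≤ η := hl s hs1 hsd

/-- extension for products -/
lemma ext_prod {T D : ℕ} (L : (Pt T D → ℝ) →ₗ[ℝ] ℝ) (Φ : Finset (Finset (Fin T))) (a : Pt T D)
    (η : ℝ)
    (hL : ∀ g : Finset (Fin T) → Pt T D → ℝ, (∀ J φ, g J φ = 1 ∨ g J φ = -1) →
      (∀ J, Dep J (g J)) → |L (fun φ => ∏ J ∈ Φ, g J φ)| ≤ η)
    (S : Finset (Finset (Fin T))) :
    ∀ g : Finset (Fin T) → Pt T D → ℝ, (∀ J φ, |g J φ| ≤ 1) → (∀ J, Dep J (g J)) →
      (∀ J, J ∉ S → ∀ φ, g J φ = 1 ∨ g J φ = -1) → |L (fun φ => ∏ J ∈ Φ, g J φ)| ≤ η := by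
  induction S using Finset.induction_on with
  | empty =>
    intro g _ hd hs
    exact hL g (fun J φ => hs J (Finset.notMem_empty J) φ) hd
  | insert J₀ S hJS ih =>
    intro g hb hd hs
    by_cases hJ : J₀ ∈ Φ
    · let G : Pt T D → ℝ := fun φ => ∏ J ∈ Φ.erase J₀, g J φ
      let l : (Pt T D → ℝ) →ₗ[ℝ] ℝ :=
        { toFun := fun h => L (fun φ => h φ * G φ)
          map_add' := by
            intro u v
            rw [← map_add]
            congr 1
            funext φ
            simp only [Pi.add_apply]
            ring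
          map_smul' := by
            intro c u
            rw [RingHom.id_apply, ← map_smul]
            congr 1
            funext φ
            simp only [Pi.smul_apply, smul_eq_mul]
            ring }
      have hprod : ∀ h : Pt T D → ℝ, ∀ φ, ∏ J ∈ Φ, (Function.update g J₀ h) J φ = h φ * G φ := by
        intro h φ
        rw [← Finset.mul_prod_erase Φ _ hJ, Function.update_self]
        congr 1
        apply Finset.prod_congr rfl
        intro J hJ'
        rw [Function.update_of_ne (Finset.ne_of_mem_erase hJ')]
      have hstep : ∀ h : Pt T D → ℝ, (∀ φ, h φ = 1 ∨ h φ = -1) → Dep J₀ h → |l h| ≤ η := by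
        intro h hh hdh
        have h1 := ih (Function.update g J₀ h) ?_ ?_ ?_
        · have h2 : (fun φ => ∏ J ∈ Φ, (Function.update g J₀ h) J φ) = fun φ => h φ * G φ := by
            funext φ
            exact hprod h φ
          rw [h2] at h1
          exact h1
        · intro J φ
          by_cases hJJ : J = J₀
          · subst hJJ
            rw [Function.update_self]
            rcases hh φ with h3 | h3 <;> rw [h3] <;> norm_num
          · rw [Function.update_of_ne hJJ]
            exact hb J φ
        · intro J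
          by_cases hJJ : J = J₀
          · subst hJJ
            rw [Function.update_self]
            exact hdh
          · rw [Function.update_of_ne hJJ]
            exact hd J
        · intro J hJn φ
          by_cases hJJ : J = J₀
          · subst hJJ
            rw [Function.update_self]
            exact hh φ
          · rw [Function.update_of_ne hJJ]
            exact hs J (by
              rw [Finset.mem_insert]
              rintro (h3 | h3)
              · exact hJJ h3
              · exact hJn h3) φ
      have hfin := ext_one l J₀ a η hstep (g J₀) (hb J₀) (hd J₀)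
      have h2 : (fun φ => ∏ J ∈ Φ, g J φ) = fun φ => g J₀ φ * G φ := by
        funext φ
        have := hprod (g J₀) φ
        rw [Function.update_eq_self] at this
        exact this
      rw [h2]
      exact hfin
    · have h1 := ih (Function.update g J₀ (fun _ => 1)) ?_ ?_ ?_
      · have h2 : (fun φ => ∏ J ∈ Φ, (Function.update g J₀ (fun _ => (1 : ℝ))) J φ) =
            fun φ => ∏ J ∈ Φ, g J φ := by
          funext φ
          apply Finset.prod_congr rfl
          intro J hJ'
          rw [Function.update_of_ne]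
          rintro rfl
          exact hJ hJ'
        rw [h2] at h1
        exact h1
      · intro J φ
        by_cases hJJ : J = J₀
        · subst hJJ
          rw [Function.update_self]
          norm_num
        · rw [Function.update_of_ne hJJ]
          exact hb J φ
      · intro J
        by_cases hJJ : J = J₀
        · subst hJJ
          rw [Function.update_self]
          intro φ ψ _
          rfl
        · rw [Function.update_of_ne hJJ]
          exact hd J
      · intro J hJn φ
        by_cases hJJ : J = J₀
        · subst hJJ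
          rw [Function.update_self]
          left
          rfl
        · rw [Function.update_of_ne hJJ]
          exact hs J (by
            rw [Finset.mem_insert]
            rintro (h3 | h3)
            · exact hJJ h3
            · exact hJn h3) φ

/-- the linear functional -/
noncomputable def Lam {T D N : ℕ} (x : Fin N → Pt T D) (J0 : Finset (Fin T)) (a : Pt T D) :
    (Pt T D → ℝ) →ₗ[ℝ] ℝ where
  toFun := fun F => avg (cell x J0 a) (fun i => F (x i)) - avg (blk J0 a) F
  map_add' := by
    intro u v
    unfold avg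
    simp only [Pi.add_apply, Finset.sum_add_distrib]
    ring
  map_smul' := by
    intro c u
    unfold avg
    simp only [Pi.smul_apply, smul_eq_mul, RingHom.id_apply]
    rw [← Finset.mul_sum, ← Finset.mul_sum]
    ring

lemma avg_abs_le_one {α : Type} (A : Finset α) (f : α → ℝ) (hf : ∀ i, |f i| ≤ 1) :
    |avg A f| ≤ 1 := by
  unfold avg
  rw [abs_div, Nat.abs_cast]
  have h1 : |∑ i ∈ A, f i| ≤ A.card := by
    calc |∑ i ∈ A, f i| ≤ ∑ i ∈ A, |f i| := Finset.abs_sum_le_sum_abs _ _
      _ ≤ ∑ _i ∈ A, (1 : ℝ) := Finset.sum_le_sum fun i _ => hf i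
      _ = A.card := by simp
  exact div_le_one_of_le₀ h1 (Nat.cast_nonneg _)

theorem prnd (h : UniStmt) : PrndStmt := by
  intro β k T η hη
  obtain ⟨D0, hD0⟩ := h β (max k β) T (min (η / 4) (1 / 2)) (by positivity)
    ((min_le_right _ _).trans (by norm_num))
  refine ⟨max D0 1, fun D hD => ?_⟩
  have hD1 : 1 ≤ D := (le_max_right _ _).trans hD
  obtain ⟨x, hx⟩ := hD0 D ((le_max_left _ _).trans hD)
  set t : ℝ := min (η / 4) (1 / 2) with ht
  have ht0 : 0 < t := by rw [ht]; positivity
  have ht1 : t ≤ 1 / 2 := min_le_right _ _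
  have ht4 : 4 * t ≤ η := by
    have : t ≤ η / 4 := min_le_left _ _
    linarith
  have hDpos : (0 : ℝ) < D := by exact_mod_cast hD1
  -- the size of the cells
  have hcb : ∀ (J : Finset (Fin T)) (a : Pt T D), J.card ≤ β →
      |((cell x J a).card : ℝ) - (D : ℝ) ^ (β + 1 - J.card)| ≤
        t * (D : ℝ) ^ (β + 1 - J.card) := by
    intro J a hJ
    have h1 := hx J J a (fun _ _ => 1) subset_rfl hJ (hJ.trans (le_max_right _ _))
      (fun _ _ => Or.inl rfl) (fun _ _ _ _ => rfl)
    simp only [Finset.prod_const_one, Finset.sum_const, nsmul_eq_mul, mul_one] at h1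
    have h2 : avg (blk J a) (fun _ => (1 : ℝ)) = 1 := by
      unfold avg
      rw [Finset.sum_const, nsmul_eq_mul, mul_one]
      apply div_self
      have : (blk J a).Nonempty := ⟨a, Finset.mem_filter.mpr ⟨Finset.mem_univ _, fun _ _ => rfl⟩⟩
      exact_mod_cast this.card_pos.ne'
    rw [h2, mul_one] at h1
    exact h1
  refine ⟨x, ?_, ?_⟩
  · intro J0 K a F hJK hJ0 hK hPF
    obtain ⟨g, hg1, hgd, hgF⟩ := hPF
    have hFe : F = fun φ => ∏ J ∈ K.powerset.filter (fun J => J0 ⊆ J ∧ J.card ≤ β), g J φ := by
      funext φ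
      exact hgF φ
    have hmain : ∀ g' : Finset (Fin T) → Pt T D → ℝ, (∀ J φ, g' J φ = 1 ∨ g' J φ = -1) →
        (∀ J, Dep J (g' J)) →
        |Lam x J0 a (fun φ =>
          ∏ J ∈ K.powerset.filter (fun J => J0 ⊆ J ∧ J.card ≤ β), g' J φ)| ≤ η := by
      intro g' hg' hgd'
      have h1 := hx J0 K a g' hJK hJ0 (hK.trans (le_max_left _ _)) hg' hgd'
      have h2 := hcb J0 a hJ0
      set E : ℝ := (D : ℝ) ^ (β + 1 - J0.card) with hE
      have hEpos : 0 < E := pow_pos hDpos _
      set c : ℝ := ((cell x J0 a).card : ℝ) with hc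
      set Sm : ℝ := ∑ i ∈ cell x J0 a,
        ∏ J ∈ K.powerset.filter (fun J => J0 ⊆ J ∧ J.card ≤ β), g' J (x i) with hSm
      set A : ℝ := avg (blk J0 a)
        (fun φ => ∏ J ∈ K.powerset.filter (fun J => J0 ⊆ J ∧ J.card ≤ β), g' J φ) with hA
      have hA1 : |A| ≤ 1 := by
        apply avg_abs_le_one
        intro φ
        rw [Finset.abs_prod]
        apply Finset.prod_le_one
        · intro J _
          exact abs_nonneg _
        · intro J _
          rcases hg' J φ with h3 | h3 <;> rw [h3] <;> norm_num
      have hcE : E / 2 ≤ c := by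
        have h3 := (abs_le.mp h2).1
        nlinarith
      have hcpos : 0 < c := by linarith
      have hL : Lam x J0 a (fun φ =>
          ∏ J ∈ K.powerset.filter (fun J => J0 ⊆ J ∧ J.card ≤ β), g' J φ) = Sm / c - A := rfl
      rw [hL]
      have h5 : Sm / c - A = (Sm - c * A) / c := by
        field_simp
      rw [h5, abs_div, abs_of_pos hcpos, div_le_iff₀ hcpos]
      have h6 : Sm - c * A = (Sm - E * A) + (E - c) * A := by ring
      rw [h6]
      have h7 : |(E - c) * A| ≤ t * E := by
        rw [abs_mul]
        have h8 : |E - c| ≤ t * E := by rw [abs_sub_comm]; exact h2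
        calc |E - c| * |A| ≤ (t * E) * 1 := mul_le_mul h8 hA1 (abs_nonneg _) (by positivity)
          _ = t * E := mul_one _
      calc |(Sm - E * A) + (E - c) * A| ≤ |Sm - E * A| + |(E - c) * A| := abs_add_le _ _
        _ ≤ t * E + t * E := add_le_add h1 h7
        _ = 4 * t * (E / 2) := by ring
        _ ≤ η * c := mul_le_mul ht4 hcE (by positivity) hη.le
    have hfin := ext_prod (Lam x J0 a) (K.powerset.filter (fun J => J0 ⊆ J ∧ J.card ≤ β)) a η hmain
      Finset.univ g hg1 hgd (fun J hJ => absurd (Finset.mem_univ J) hJ)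
    rw [← hFe] at hfin
    exact hfin
  · intro J a hJ
    refine (hcb J a hJ).trans ?_
    have hEpos : 0 < (D : ℝ) ^ (β + 1 - J.card) := pow_pos hDpos _
    have : t ≤ η := by linarith
    exact mul_le_mul_of_nonneg_right this hEpos.le

end Pool.Agent.Helper27.PU
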